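import Pool.Agent.H46.CH.AS

/-!
# (PSn) the extensions are carried to the roots one after the other (MP_64fb07_lc).  helper99
-/

set_option autoImplicit false

namespace Pool.Agent.H99.CHE

open Classical Pool.Agent.H8.VR Pool.Agent.H69.VR Pool.Agent.H46.CH

theorem pf_PSn (hSD : T_SDn) : Pool.Agent.H46.CH.T_PSn := by
  intro N Q L T O C _ _ _ _ _ _ V hV D n t R h hRD
  set g : ℕ → Fin n → Rt N Q L T O C := fun k i => if (i : ℕ) < k then R i else t i with hg
  have hdle : ∀ k i, V.W.dle D (g k i).dt := by
    intro k i
    rw [hg]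
    simp only
    split_ifs
    · exact (h i).2.2.2
    · exact (h i).2.2.1
  have key : ∀ k : ℕ, k ≤ n → V.RD D.s (fun σ => D.c σ + ∑ i, ((g k i).dt.c σ - D.c σ)) := by
    intro k
    induction k with
    | zero =>
      intro _
      have h1 : ∀ i, g 0 i = t i := by
        intro i
        rw [hg]
        simp
      simp only [h1]
      exact hRD
    | succ k ih =>
      intro hk
      have ih' := ih (by omega)
      set i0 : Fin n := ⟨k, by omega⟩ with hi0
      have e1 : g k i0 = t i0 := by
        rw [hg]
        simp [hi0]
      have e2 : g (k + 1) i0 = R i0 := by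
        rw [hg]
        simp [hi0]
      have e3 : ∀ i ∈ Finset.univ.erase i0, g (k + 1) i = g k i := by
        intro i hi
        have h1 : i ≠ i0 := Finset.ne_of_mem_erase hi
        have h2 : (i : ℕ) ≠ k := fun h3 => h1 (Fin.ext h3)
        rw [hg]
        simp only
        by_cases h3 : (i : ℕ) < k
        · rw [if_pos h3, if_pos (by omega)]
        · rw [if_neg h3, if_neg (by omega)]
      set U : Ix Q L T C → ℕ := fun σ => ∑ i ∈ Finset.univ.erase i0, ((g k i).dt.c σ - D.c σ)
        with hU
      have hle : ∀ k i σ, D.c σ ≤ (g k i).dt.c σ := by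
        intro k i σ
        rcases (hdle k i).2.2 σ with h1 | h1
        · exact h1.le
        · exact h1.2.1
      have f1 : (fun σ => D.c σ + ∑ i, ((g k i).dt.c σ - D.c σ)) = (t i0).dt.c + U := by
        funext σ
        have h1 := Finset.add_sum_erase Finset.univ (fun i => (g k i).dt.c σ - D.c σ)
          (Finset.mem_univ i0)
        have h2 := hle k i0 σ
        rw [e1] at h2 h1
        show _ = (t i0).dt.c σ + U σ
        rw [← h1, hU]
        simp only
        omega
      have f2 : (fun σ => D.c σ + ∑ i, ((g (k + 1) i).dt.c σ - D.c σ)) = (R i0).dt.c + U := by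
        funext σ
        have h1 := Finset.add_sum_erase Finset.univ (fun i => (g (k + 1) i).dt.c σ - D.c σ)
          (Finset.mem_univ i0)
        have h2 := hle (k + 1) i0 σ
        rw [e2] at h2 h1
        have h3 : ∑ i ∈ Finset.univ.erase i0, ((g (k + 1) i).dt.c σ - D.c σ) = U σ := by
          rw [hU]
          exact Finset.sum_congr rfl fun i hi => by rw [e3 i hi]
        show _ = (R i0).dt.c σ + U σ
        rw [← h1, h3]
        omega
      rw [f1] at ih'
      rw [f2]
      refine hSD N Q L T O C V hV (t i0) (R i0) D U (h i0).1 (h i0).2.1 (h i0).2.2.1 (h i0).2.2.2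
        ?_ ?_ ih'
      · intro σ
        rw [hU]
        apply Finset.dvd_sum
        intro i _
        rcases (hdle k i).2.2 σ with h1 | h1
        · rw [h1, Nat.sub_self]
          exact dvd_zero _
        · exact (Nat.modEq_iff_dvd' h1.2.1).1 h1.2.2
      · intro σ hσ
        rw [hU] at hσ
        obtain ⟨i, -, hi⟩ := Finset.exists_ne_zero_of_sum_ne_zero hσ
        rcases (hdle k i).2.2 σ with h1 | h1
        · exact absurd (by rw [h1, Nat.sub_self]) hi
        · exact h1.1
  have h1 := key n (le_refl n)
  have h2 : ∀ i, g n i = R i := by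
    intro i
    rw [hg]
    simp
  simp only [h2] at h1
  exact h1

end Pool.Agent.H99.CHE
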