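import Pool.Agent.H46.CH.AS

/-!
# (PTn) the amalgam of any number of extensions (MP_64fb07_lc).  helper99
-/

set_option autoImplicit false

namespace Pool.Agent.H99.CHE

open Classical Pool.Agent.H8.VR Pool.Agent.H69.VR Pool.Agent.H46.CH

theorem pf_PTn (hED : T_ED) (hEDn : T_EDn) (hRO : T_ROn) (hPM : T_PMn) (hPS : T_PSn) :
    Pool.Agent.H46.CH.T_PTn := by
  intro N Q L T O C _ _ _ _ _ _ V hV t
  obtain ⟨-, hLeaf, hJoin⟩ := hED N Q L T O C V.W
  have hSub := hEDn N Q L T O C V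
  induction t with
  | leaf D q l =>
    intro hok n R hR
    have hex : ∀ i, ∃ D', Rt.Sub (.leaf D' q l) (R i) ∧ V.W.dle D D' := fun i =>
      hLeaf D q l (R i) (hR i).2.2
    choose D' hD' hdD' using hex
    have hc : ∀ σ, D.c σ = ind (σ = (q, (l, fun _ => V.W.K.cp 0))) := by
      cases hok with
      | leaf _ _ _ h hc hg => exact hc
    have hc' : ∀ i σ, (D' i).c σ = ind (σ = (q, (l, fun _ => V.W.K.cp 0))) := by
      intro i
      have h1 := hSub _ _ (hD' i) (hR i).1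
      cases h1 with
      | leaf _ _ _ h hc hg => exact hc
    refine hPS N Q L T O C V hV D n (fun i => .leaf (D' i) q l) R (fun i =>
      ⟨hD' i, (hR i).1, hdD' i, (hR i).2.1⟩) ?_
    have h2 := hRO N Q L T O C V (.leaf D q l) hok
    have h3 : (fun σ => D.c σ + ∑ i : Fin n, ((Rt.leaf (D' i) q l : Rt N Q L T O C).dt.c σ -
        D.c σ)) = D.c := by
      funext σ
      have h4 : ∀ i : Fin n, (Rt.leaf (D' i) q l : Rt N Q L T O C).dt.c σ - D.c σ = 0 := by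
        intro i
        show (D' i).c σ - D.c σ = 0
        rw [hc', hc, Nat.sub_self]
      simp only [h4, Finset.sum_const_zero, add_zero]
    rw [h3]
    exact h2
  | join D o w t₁ t₂ ih₁ ih₂ =>
    intro hok n R hR
    have hex : ∀ i, ∃ D' w' t₁' t₂', Rt.Sub (.join D' o w' t₁' t₂') (R i) ∧
        V.W.dle D D' ∧ List.SublistForall₂ V.W.sle w w' ∧ V.W.Emb t₁ t₁' ∧ V.W.Emb t₂ t₂' ∧
        V.W.dle t₁.dt t₁'.dt ∧ V.W.dle t₂.dt t₂'.dt := fun i =>
      hJoin D o w t₁ t₂ (R i) (hR i).2.2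
    choose D' w' t₁' t₂' h1 h2 h3 h4 h5 h6 h7 using hex
    have hok' : ∀ i, V.Ok (.join (D' i) o (w' i) (t₁' i) (t₂' i)) := fun i =>
      hSub _ _ (h1 i) (hR i).1
    have hok₁ : V.Ok t₁ ∧ V.Ok t₂ := by
      cases hok with
      | join _ _ _ _ _ ha hb => exact ⟨ha, hb⟩
    have hok₁' : ∀ i, V.Ok (t₁' i) ∧ V.Ok (t₂' i) := by
      intro i
      have h8 := hok' i
      cases h8 with
      | join _ _ _ _ _ ha hb => exact ⟨ha, hb⟩
    have r1 := ih₁ hok₁.1 n t₁' (fun i => ⟨(hok₁' i).1, h6 i, h4 i⟩)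
    have r2 := ih₂ hok₁.2 n t₂' (fun i => ⟨(hok₁' i).2, h7 i, h5 i⟩)
    have r3 := hPM N Q L T O C V hV D o w t₁ t₂ hok n D' w' t₁' t₂'
      (fun i => ⟨hok' i, h2 i, h3 i, h6 i, h7 i⟩) r1 r2
    exact hPS N Q L T O C V hV D n (fun i => .join (D' i) o (w' i) (t₁' i) (t₂' i)) R (fun i =>
      ⟨h1 i, (hR i).1, h2 i, (hR i).2.1⟩) r3

end Pool.Agent.H99.CHE
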